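import Mathlib
import Pool.Agent.R139.ValDelta

/-!
# Principal minors of skew-Hermitian plus rank-one Hermitian matrices
-/

set_option autoImplicit false

namespace Pool.Agent.Results.MP_c0a4b6_co.SkewHermitianPlusRankOne

open Pool.Agent.R139.ValDelta Matrix

theorem exists_vec {K : Type*} [Field K] [StarRing K] {n : ℕ} (C : Matrix (Fin n) (Fin n) K)
    (hC : Cᴴ = C) (hC1 : C.rank = 1) :
    ∃ (z : Fin n → K) (β : K), ∀ i j, C i j = β * (z i * star (z j)) := by
  have hle : Module.finrank K (LinearMap.range C.mulVecLin) ≤ 1 := hC1.le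
  rw [finrank_le_one_iff] at hle
  obtain ⟨x, hx⟩ := hle
  have h1 : ∀ j, ∃ c : K, ∀ i, C i j = c * x.1 i := by
    intro j
    obtain ⟨c, hc⟩ := hx ⟨C.mulVecLin (Pi.single j 1), ⟨_, rfl⟩⟩
    refine ⟨c, fun i => ?_⟩
    have h2 := congrArg (fun y => y.1 i) hc
    simp only [Matrix.mulVecLin_apply, Matrix.mulVec_single_one] at h2
    exact h2.symm
  choose y hy using h1
  by_cases h0 : ∀ i, x.1 i = 0
  · exact ⟨0, 0, fun i j => by rw [hy, h0]; simp⟩
  · push Not at h0
    obtain ⟨i₀, hi₀⟩ := h0
    refine ⟨x.1, (x.1 i₀)⁻¹ * star (y i₀), fun i j => ?_⟩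
    have h2 : y j = (x.1 i₀)⁻¹ * star (y i₀) * star (x.1 j) := by
      have h3 : C i₀ j = star (C j i₀) := by
        conv_lhs => rw [← hC]
        rfl
      rw [hy, hy, star_mul] at h3
      field_simp
      rw [h3]
      ring
    rw [hy, h2]
    ring

/-- Let `K` be a field with an involution `star` (possibly the identity) and a valuation
`ν : K → ℝ ∪ {∞}` preserved by it. For `B` skew-Hermitian and `C` Hermitian of rank one,
`S ↦ ν (det (B + C)[S])` is a valuated `Δ`-matroid. -/
theorem result {K : Type*} [Field K] [StarRing K] (ν : AddValuation K (WithTop ℝ))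
    (hν : ∀ a, ν (star a) = ν a) {n : ℕ} (B C : Matrix (Fin n) (Fin n) K)
    (hB : Bᴴ = -B) (hC : Cᴴ = C) (hC1 : C.rank = 1) :
    IsValuatedDeltaMatroid fun S : Finset (Fin n) =>
      ν ((B + C).submatrix (fun i : S => (i : Fin n)) (fun i : S => (i : Fin n))).det := by
  obtain ⟨z, β, hz⟩ := exists_vec C hC hC1
  have h := main ν hν (B + C) 1 z (-(2 * β)) ?_
  · simpa only [det_colMix_one] using h
  · intro k l
    have h1 : B l k = - star (B k l) := by
      have := congrFun (congrFun hB l) k
      rw [Matrix.neg_apply, Matrix.conjTranspose_apply] at this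
      rw [this, neg_neg]
    have h2 : star (C l k) = C k l := by
      have := congrFun (congrFun hC k) l
      rwa [Matrix.conjTranspose_apply] at this
    simp only [Matrix.one_apply, Finset.sum_add_distrib]
    have e1 : ∑ x, (B + C) k x * star (if l = x then (1 : K) else 0) = (B + C) k l := by
      rw [Finset.sum_eq_single l]
      · simp
      · intro b _ hb
        rw [if_neg (Ne.symm hb)]
        simp
      · simp
    have e2 : ∑ x, (if k = x then (1 : K) else 0) * star ((B + C) l x) = star ((B + C) l k) := by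
      simp
    rw [e1, e2, Matrix.add_apply, Matrix.add_apply, star_add, h2, h1, star_neg, star_star]
    linear_combination 2 * hz k l

end Pool.Agent.Results.MP_c0a4b6_co.SkewHermitianPlusRankOne
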